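import Pool.Agent.Helper99.AA.Stmts
import Pool.Agent.Helper51.MR.U

/-!
V1: the middle range of the variance (project AA, MP_1f31dd_nt).
-/

set_option autoImplicit false

open Finset MeasureTheory
open scoped BigOperators Nat Topology

namespace Pool.Agent.Helper68.AA

open Pool.Agent.Helper40.MR Pool.Agent.Helper99.AA

theorem v1_nit_mul {m n : ℕ} (hm : m ≠ 0) (hn : n ≠ 0) (t : ℝ) :
    nit (m * n) t = nit m t * nit n t := by
  unfold nit
  rw [← Complex.exp_add]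
  congr 1
  push_cast
  rw [Real.log_mul (by exact_mod_cast hm) (by exact_mod_cast hn)]
  push_cast
  ring

/-- the number of representations as an ordered product of two elements of `P` -/
noncomputable def v1_r (P : Finset ℕ) (n : ℕ) : ℕ :=
  ((P ×ˢ P).filter (fun r : ℕ × ℕ => r.1 * r.2 = n)).card

theorem v1_r_le {P : Finset ℕ} (hP : ∀ p ∈ P, p.Prime) (n : ℕ) : v1_r P n ≤ 2 := by
  classical
  unfold v1_r
  rcases ((P ×ˢ P).filter (fun r : ℕ × ℕ => r.1 * r.2 = n)).eq_empty_or_nonempty with h | ⟨r, hr⟩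
  · rw [h]; simp
  · obtain ⟨a, b⟩ := r
    rw [mem_filter, mem_product] at hr
    obtain ⟨⟨ha, hb⟩, hab⟩ := hr
    simp only at ha hb hab
    refine (card_le_card (t := {(a, b), (b, a)}) ?_).trans card_le_two
    rintro ⟨p, q⟩ hpq
    rw [mem_filter, mem_product] at hpq
    obtain ⟨⟨hp, hq⟩, he⟩ := hpq
    simp only at hp hq he
    have hap := hP a ha
    have hbp := hP b hb
    have hpp := hP p hp
    have hqp := hP q hq
    have hd : p ∣ a * b := by rw [hab, ← he]; exact dvd_mul_right _ _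
    rw [mem_insert, mem_singleton]
    rcases (Nat.Prime.dvd_mul hpp).1 hd with h | h
    · have h1 : p = a := (Nat.prime_dvd_prime_iff_eq hpp hap).1 h
      left
      have h2 : q = b := by
        have : p * q = p * b := by rw [he, ← hab, h1]
        exact Nat.eq_of_mul_eq_mul_left hpp.pos this
      rw [h1, h2]
    · have h1 : p = b := (Nat.prime_dvd_prime_iff_eq hpp hbp).1 h
      right
      have h2 : q = a := by
        have : p * q = p * a := by rw [he, ← hab, h1, mul_comm]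
        exact Nat.eq_of_mul_eq_mul_left hpp.pos this
      rw [h1, h2]

theorem v1_sq {P : Finset ℕ} (hP : ∀ p ∈ P, p.Prime) {N : ℕ}
    (hN : ∀ p ∈ P, ∀ q ∈ P, p * q ≤ N) (t : ℝ) :
    DP P (fun _ => 1) t ^ 2 = ∑ n ∈ Icc 1 N, ((v1_r P n : ℂ) / n) * nit n t := by
  classical
  have h1 : DP P (fun _ => 1) t ^ 2 =
      ∑ r ∈ P ×ˢ P, (1 / ((r.1 * r.2 : ℕ) : ℂ)) * nit (r.1 * r.2) t := by
    unfold DP
    rw [sq, sum_mul_sum, sum_product]
    refine sum_congr rfl fun p hp => sum_congr rfl fun q hq => ?_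
    rw [v1_nit_mul (hP p hp).ne_zero (hP q hq).ne_zero]
    have hp0 : (p : ℂ) ≠ 0 := by exact_mod_cast (hP p hp).ne_zero
    have hq0 : (q : ℂ) ≠ 0 := by exact_mod_cast (hP q hq).ne_zero
    push_cast
    field_simp
  have h2 : ∀ r ∈ P ×ˢ P, (fun r : ℕ × ℕ => r.1 * r.2) r ∈ Icc 1 N := by
    rintro ⟨p, q⟩ hr
    rw [mem_product] at hr
    rw [mem_Icc]
    exact ⟨Nat.mul_pos (hP p hr.1).pos (hP q hr.2).pos, hN p hr.1 q hr.2⟩
  rw [h1, ← sum_fiberwise_of_maps_to h2]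
  refine sum_congr rfl fun n _ => ?_
  have h3 : ∀ r ∈ (P ×ˢ P).filter (fun r : ℕ × ℕ => r.1 * r.2 = n),
      (1 / ((r.1 * r.2 : ℕ) : ℂ)) * nit (r.1 * r.2) t = 1 / (n : ℂ) * nit n t := by
    intro r hr
    rw [mem_filter] at hr
    rw [hr.2]
  rw [sum_congr rfl h3, sum_const, nsmul_eq_mul]
  unfold v1_r
  ring

/-- fourth moment -/
theorem v1_four {C : ℝ} (hC : 0 < C)
    (hMV : ∀ (N : ℕ) (T : ℝ) (c : ℕ → ℂ), 1 ≤ T →
      ∫ t in (-T)..T, ‖∑ n ∈ Icc 1 N, c n * nit n t‖ ^ 2 ≤ C * (T + N) * ∑ n ∈ Icc 1 N, ‖c n‖ ^ 2)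
    {P : Finset ℕ} {M T : ℝ} (hM : 0 < M) (hT : 1 ≤ T) (hTM : T ≤ M ^ 2)
    (hP : ∀ p ∈ P, p.Prime ∧ M < p ∧ (p : ℝ) ≤ 2 * M) :
    ∫ t in (-T)..T, ‖DP P (fun _ => 1) t‖ ^ (2 * 2) ≤ 80 * C := by
  classical
  set N := ⌊4 * M ^ 2⌋₊ with hN
  have hNle : (N : ℝ) ≤ 4 * M ^ 2 := Nat.floor_le (by positivity)
  have hb : ∀ p ∈ P, ∀ q ∈ P, p * q ≤ N := by
    intro p hp q hq
    apply Nat.le_floor
    push_cast
    have h1 := (hP p hp).2.2
    have h2 := (hP q hq).2.2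
    have h3 : (0 : ℝ) ≤ q := Nat.cast_nonneg _
    nlinarith
  have e1 : ∀ t, ‖DP P (fun _ => 1) t‖ ^ (2 * 2) =
      ‖∑ n ∈ Icc 1 N, ((v1_r P n : ℂ) / n) * nit n t‖ ^ 2 := by
    intro t
    rw [← v1_sq (fun p hp => (hP p hp).1) hb, norm_pow, ← pow_mul]
  simp only [e1]
  refine (hMV N T _ hT).trans ?_
  have e2 : ∀ n ∈ Icc 1 N, ‖(v1_r P n : ℂ) / n‖ ^ 2 ≤ 4 / M ^ 4 := by
    intro n hn
    rcases Nat.eq_zero_or_pos (v1_r P n) with h | h
    · rw [h]; simp; positivity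
    · have h1 : M ^ 2 ≤ n := by
        unfold v1_r at h
        obtain ⟨r, hr⟩ := card_pos.1 h
        rw [mem_filter, mem_product] at hr
        have h2 := (hP r.1 hr.1.1).2.1
        have h3 := (hP r.2 hr.1.2).2.1
        rw [← hr.2]
        push_cast
        nlinarith
      have h2 : (v1_r P n : ℝ) ≤ 2 := by exact_mod_cast v1_r_le (fun p hp => (hP p hp).1) n
      rw [norm_div, Complex.norm_natCast, Complex.norm_natCast, div_pow]
      have h3 : (M ^ 2) ^ 2 ≤ (n : ℝ) ^ 2 := pow_le_pow_left₀ (by positivity) h1 2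
      have h4 : (v1_r P n : ℝ) ^ 2 ≤ 4 := by
        have : (0 : ℝ) ≤ v1_r P n := Nat.cast_nonneg _
        nlinarith
      rw [show M ^ 4 = (M ^ 2) ^ 2 by ring]
      exact div_le_div₀ (by norm_num) h4 (by positivity) h3
  have e3 : ∑ n ∈ Icc 1 N, ‖(v1_r P n : ℂ) / n‖ ^ 2 ≤ 16 / M ^ 2 := by
    calc ∑ n ∈ Icc 1 N, ‖(v1_r P n : ℂ) / n‖ ^ 2 ≤ (Icc 1 N).card • (4 / M ^ 4) :=
          sum_le_card_nsmul _ _ _ e2
      _ = N * (4 / M ^ 4) := by rw [Nat.card_Icc, nsmul_eq_mul]; simp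
      _ ≤ 4 * M ^ 2 * (4 / M ^ 4) := by gcongr
      _ = 16 / M ^ 2 := by field_simp; norm_num
  calc C * (T + N) * ∑ n ∈ Icc 1 N, ‖(v1_r P n : ℂ) / n‖ ^ 2
      ≤ C * (M ^ 2 + 4 * M ^ 2) * (16 / M ^ 2) := by gcongr
    _ = 80 * C := by field_simp; norm_num

/-- second moment of the short polynomial -/
theorem v1_two {C : ℝ} (hC : 0 < C)
    (hMV : ∀ (N : ℕ) (T : ℝ) (c : ℕ → ℂ), 1 ≤ T →
      ∫ t in (-T)..T, ‖∑ n ∈ Icc 1 N, c n * nit n t‖ ^ 2 ≤ C * (T + N) * ∑ n ∈ Icc 1 N, ‖c n‖ ^ 2)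
    {P : Finset ℕ} {M T : ℝ} (hM : 0 < M) (hT : 1 ≤ T)
    (hP : ∀ p ∈ P, 1 ≤ p ∧ M / 2 ≤ p ∧ (p : ℝ) ≤ 2 * M) :
    ∫ t in (-T)..T, ‖DP P (fun _ => 1) t‖ ^ 2 ≤ 8 * C * (T / M + 2) := by
  classical
  set N := ⌊2 * M⌋₊ with hN
  have hNle : (N : ℝ) ≤ 2 * M := Nat.floor_le (by positivity)
  have hsub : P ⊆ Icc 1 N := by
    intro p hp
    rw [mem_Icc]
    exact ⟨(hP p hp).1, Nat.le_floor (hP p hp).2.2⟩
  set c : ℕ → ℂ := fun n => if n ∈ P then 1 / n else 0 with hc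
  have e1 : ∀ t, DP P (fun _ => 1) t = ∑ n ∈ Icc 1 N, c n * nit n t := by
    intro t
    unfold DP
    rw [← sum_subset hsub (fun n _ hn => by simp [hc, hn])]
    exact sum_congr rfl fun n hn => by simp [hc, hn]
  simp only [e1]
  refine (hMV N T c hT).trans ?_
  have e2 : ∀ n ∈ Icc 1 N, ‖c n‖ ^ 2 ≤ 4 / M ^ 2 := by
    intro n _
    by_cases hn : n ∈ P
    · have h1 := (hP n hn).2.1
      simp only [hc, hn, if_true]
      rw [norm_div, norm_one, Complex.norm_natCast, div_pow, one_pow]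
      have h2 : (M / 2) ^ 2 ≤ (n : ℝ) ^ 2 := pow_le_pow_left₀ (by positivity) h1 2
      rw [show (4 : ℝ) / M ^ 2 = 1 / (M / 2) ^ 2 by field_simp; norm_num]
      exact div_le_div₀ (by norm_num) le_rfl (by positivity) h2
    · simp only [hc, hn, if_false]
      simp
      positivity
  have e3 : ∑ n ∈ Icc 1 N, ‖c n‖ ^ 2 ≤ 8 / M := by
    calc ∑ n ∈ Icc 1 N, ‖c n‖ ^ 2 ≤ (Icc 1 N).card • (4 / M ^ 2) :=
          sum_le_card_nsmul _ _ _ e2
      _ = N * (4 / M ^ 2) := by rw [Nat.card_Icc, nsmul_eq_mul]; simp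
      _ ≤ 2 * M * (4 / M ^ 2) := by gcongr
      _ = 8 / M := by field_simp; norm_num
  calc C * (T + N) * ∑ n ∈ Icc 1 N, ‖c n‖ ^ 2
      ≤ C * (T + 2 * M) * (8 / M) := by gcongr
    _ = 8 * C * (T / M + 2) := by field_simp

theorem v1_ev (k : ℕ) {r δ : ℝ} (hr : 0 < r) (hδ : 0 < δ) :
    ∃ M₀ : ℝ, ∀ M : ℝ, M₀ ≤ M → Real.log M ^ k ≤ δ * M ^ r := by
  have h1 := (isLittleO_log_rpow_rpow_atTop (k : ℝ) hr).bound hδ
  obtain ⟨M₀, h2⟩ := Filter.eventually_atTop.1 (h1.and (Filter.eventually_ge_atTop (1 : ℝ)))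
  refine ⟨M₀, fun M hM => ?_⟩
  obtain ⟨h3, h4⟩ := h2 M hM
  rw [Real.rpow_natCast, Real.norm_eq_abs, Real.norm_eq_abs,
    abs_of_nonneg (pow_nonneg (Real.log_nonneg h4) k),
    abs_of_nonneg (Real.rpow_nonneg (by linarith) r)] at h3
  exact h3

theorem v1_mem {a b : ℝ} (ha : 0 ≤ a) {p : ℕ} (hp : p ∈ PrI a b) :
    p.Prime ∧ a < p ∧ (p : ℝ) ≤ b := by
  unfold PrI IocN at hp
  rw [mem_filter, mem_Ioc] at hp
  refine ⟨hp.2, (Nat.floor_lt ha).1 hp.1.1, ?_⟩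
  have h1 : p ≠ 0 := hp.2.ne_zero
  exact (Nat.le_floor_iff' h1).1 hp.1.2

theorem st_V1 (hPP : ST_PP) (hFA : ST_FA) (hMV : ST_MV) (hHM : ST_HM2) : ST_V1 := by
  intro η ε hη hη1 hε
  obtain ⟨C1, hC1, hMV⟩ := hMV
  obtain ⟨c, hc, C2, hC2, hHM⟩ := hHM 2 (by norm_num)
  have hK : 0 < 2 * (C2 * (1 + 80 * C1)) := by positivity
  obtain ⟨e, he, he2⟩ : ∃ e : ℝ, 0 < e ∧ e ^ 2 * (C2 * (1 + 80 * C1)) = ε / 2 := by
    refine ⟨Real.sqrt (ε / (2 * (C2 * (1 + 80 * C1)))), Real.sqrt_pos.2 (by positivity), ?_⟩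
    rw [Real.sq_sqrt (by positivity)]
    field_simp
  obtain ⟨T, hT, M1, hPP⟩ := hPP 2 e (by norm_num) he
  obtain ⟨M2, hM2⟩ := v1_ev 3 (r := 1) (δ := 1) (by norm_num) (by norm_num)
  obtain ⟨M3, hM3⟩ := v1_ev 2 (r := 4 * c / 5) (δ := 1) (by positivity) (by norm_num)
  obtain ⟨M4, hM4⟩ := v1_ev 7 (r := c / 10) (δ := ε / (48 * C1)) (by positivity) (by positivity)
  refine ⟨T, hT, max (max M1 M2) (max (max M3 M4) (Real.exp 1)), fun M hM => ?_⟩
  have hMM1 : M1 ≤ M := le_trans (le_trans (le_max_left _ _) (le_max_left _ _)) hM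
  have hMM2 : M2 ≤ M := le_trans (le_trans (le_max_right _ _) (le_max_left _ _)) hM
  have hMM3 : M3 ≤ M :=
    le_trans (le_trans (le_trans (le_max_left _ _) (le_max_left _ _)) (le_max_right _ _)) hM
  have hMM4 : M4 ≤ M :=
    le_trans (le_trans (le_trans (le_max_right _ _) (le_max_left _ _)) (le_max_right _ _)) hM
  have hMe : Real.exp 1 ≤ M := le_trans (le_trans (le_max_right _ _) (le_max_right _ _)) hM
  have he1 : 2 < Real.exp 1 := by
    have := Real.exp_one_gt_d9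
    linarith
  have hM0 : 0 < M := by linarith
  have hlog : 1 ≤ Real.log M := by
    rw [Real.le_log_iff_exp_le hM0]
    exact hMe
  set L := Real.log M with hL
  have hL0 : 0 < L := by linarith
  have a2 : L ^ 3 ≤ M := by
    have := hM2 M hMM2
    rw [one_mul, Real.rpow_one] at this
    exact this
  have a3 : L ^ 2 ≤ M ^ (4 * c / 5) := by
    have := hM3 M hMM3
    rw [one_mul] at this
    exact this
  have a4 : L ^ 7 ≤ ε / (48 * C1) * M ^ (c / 10) := hM4 M hMM4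
  set T' := M * L ^ 3 with hT'
  have hT'1 : 1 ≤ T' := by
    have h1 : 1 ≤ L ^ 3 := one_le_pow₀ hlog
    have h2 : M * 1 ≤ M * L ^ 3 := by gcongr
    linarith
  have hT'2 : T' ≤ M ^ 2 := by
    rw [hT', sq]
    gcongr
  set R : Set ℝ := {t : ℝ | T ≤ |t| ∧ |t| ≤ T'} with hR
  have hRm : MeasurableSet R :=
    (measurableSet_le measurable_const continuous_abs.measurable).inter
      (measurableSet_le continuous_abs.measurable measurable_const)
  have hRs : R ⊆ Set.Icc (-T') T' := fun t ht => abs_le.1 ht.2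
  set F : ℝ → ℂ := DP (Pa η M) (fun _ => 1) with hF
  set G : ℝ → ℂ := DP (Qa η M) (fun _ => 1) with hG
  have hFc : Continuous F := u_DP_cont _ _
  have hGc : Continuous G := u_DP_cont _ _
  have hfa : ∀ t, DP (Icc 1 ⌊4 * M ^ 2⌋₊) (co η M) t = F t * G t := fun t =>
    hFA η M t hη hη1 (by linarith)
  simp only [hfa]
  -- the pointwise bound for `G`
  have hGd : ∀ t ∈ R, ‖G t‖ ≤ e / L := by
    intro t ht
    refine hPP M _ _ t hMM1 ?_ ?_ ?_ ht.1 ?_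
    · nlinarith
    · nlinarith
    · nlinarith
    · rw [Real.rpow_two]
      exact ht.2.trans hT'2
  -- the set
  set w := M ^ (-(c / 20)) with hw
  have hw0 : 0 < w := Real.rpow_pos_of_pos hM0 _
  have hsplit := u_split hRm hRs hFc hGc (w := w) hGd
  refine hsplit.trans ?_
  -- second moment of `G`
  have hG2 : ∫ t in R, ‖G t‖ ^ 2 ≤ 24 * C1 * L ^ 3 := by
    have h1 : ∫ t in R, ‖G t‖ ^ 2 ≤ ∫ t in (-T')..T', ‖G t‖ ^ 2 :=
      u_le_int (by linarith) hRs (hGc.norm.pow 2) (fun t => by positivity)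
    have h2 : ∫ t in (-T')..T', ‖G t‖ ^ 2 ≤ 8 * C1 * (T' / M + 2) := by
      refine v1_two hC1 hMV hM0 hT'1 ?_
      intro p hp
      have h3 := v1_mem (by nlinarith) hp
      refine ⟨h3.1.pos, ?_, ?_⟩
      · have : M / 2 ≤ M * (1 - 3 * η) := by nlinarith
        linarith [h3.2.1]
      · have : M * (1 + η) ≤ 2 * M := by nlinarith
        linarith [h3.2.2]
    have h3 : T' / M = L ^ 3 := by rw [hT']; field_simp
    rw [h3] at h2
    have h4 : 1 ≤ L ^ 3 := one_le_pow₀ hlog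
    nlinarith
  -- the measure of the set
  have hPa : ∀ p ∈ Pa η M, p.Prime ∧ M * (1 + η) < p ∧ (p : ℝ) ≤ M * (1 + 2 * η) :=
    fun p hp => v1_mem (by positivity) hp
  have hvol : (volume (R ∩ {t | w < ‖F t‖})).toReal ≤ 80 * C1 * M ^ (c / 5) := by
    have h1 := u_cheb (by linarith) hRm hRs hFc hw0.le 2
    have h2 : ∫ t in (-T')..T', ‖F t‖ ^ (2 * 2) ≤ 80 * C1 := by
      refine v1_four hC1 hMV hM0 hT'1 hT'2 ?_
      intro p hp
      have h3 := hPa p hp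
      refine ⟨h3.1, ?_, ?_⟩
      · nlinarith [h3.2.1]
      · nlinarith [h3.2.2]
    have h3 : w ^ (2 * 2) * M ^ (c / 5) = 1 := by
      rw [hw, ← Real.rpow_natCast, ← Real.rpow_mul hM0.le, ← Real.rpow_add hM0]
      have : -(c / 20) * ((2 * 2 : ℕ) : ℝ) + c / 5 = 0 := by push_cast; ring
      rw [this, Real.rpow_zero]
    have h4 : 0 < M ^ (c / 5) := Real.rpow_pos_of_pos hM0 _
    calc (volume (R ∩ {t | w < ‖F t‖})).toReal
        = (volume (R ∩ {t | w < ‖F t‖})).toReal * (w ^ (2 * 2) * M ^ (c / 5)) := by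
          rw [h3, mul_one]
      _ = ((volume (R ∩ {t | w < ‖F t‖})).toReal * w ^ (2 * 2)) * M ^ (c / 5) := by ring
      _ ≤ (80 * C1) * M ^ (c / 5) := mul_le_mul_of_nonneg_right (h1.trans h2) h4.le
  -- the second moment of `F` on the set
  have hF2 : ∫ t in R ∩ {t | w < ‖F t‖}, ‖F t‖ ^ 2 ≤ C2 * (1 + 80 * C1) / L ^ 2 := by
    have hY : M ≤ M * (1 + η) := by nlinarith
    have hYL : L ≤ Real.log (M * (1 + η)) := Real.log_le_log hM0 hY
    have h1 := hHM (M * (1 + η)) (Pa η M) (fun _ => 1) (R ∩ {t | w < ‖F t‖}) (by linarith) ?_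
      (fun _ => by simp) (hRm.inter (measurableSet_lt measurable_const hFc.norm.measurable)) ?_
    · refine h1.trans ?_
      have h2 : C2 / Real.log (M * (1 + η)) ^ 2 ≤ C2 / L ^ 2 := by gcongr
      have h3 : (M * (1 + η)) ^ (-c) ≤ M ^ (-c) :=
        Real.rpow_le_rpow_of_nonpos hM0 hY (by linarith)
      have h4 : M ^ (c / 5) * M ^ (-c) ≤ 1 / L ^ 2 := by
        rw [← Real.rpow_add hM0, le_div_iff₀ (by positivity)]
        have h5 : M ^ (c / 5 + -c) * M ^ (4 * c / 5) = 1 := by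
          rw [← Real.rpow_add hM0]
          have : c / 5 + -c + 4 * c / 5 = 0 := by ring
          rw [this, Real.rpow_zero]
        rw [← h5]
        gcongr
      have h6 : C2 * (volume (R ∩ {t | w < ‖F t‖})).toReal * (M * (1 + η)) ^ (-c) ≤
          C2 * (80 * C1) * (1 / L ^ 2) := by
        calc C2 * (volume (R ∩ {t | w < ‖F t‖})).toReal * (M * (1 + η)) ^ (-c)
            ≤ C2 * (80 * C1 * M ^ (c / 5)) * M ^ (-c) := by gcongr
          _ = C2 * (80 * C1) * (M ^ (c / 5) * M ^ (-c)) := by ring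
          _ ≤ C2 * (80 * C1) * (1 / L ^ 2) := by gcongr
      calc C2 / Real.log (M * (1 + η)) ^ 2 +
            C2 * (volume (R ∩ {t | w < ‖F t‖})).toReal * (M * (1 + η)) ^ (-c)
          ≤ C2 / L ^ 2 + C2 * (80 * C1) * (1 / L ^ 2) := add_le_add h2 h6
        _ = C2 * (1 + 80 * C1) / L ^ 2 := by ring
    · intro p hp
      have h3 := hPa p hp
      refine ⟨h3.1, h3.2.1, h3.2.2.trans ?_⟩
      have : M * (1 + 2 * η) ≤ 2 * (M * (1 + η)) := by nlinarith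
      have h4 : 2 * (M * (1 + η)) ≤ Real.exp 1 * (M * (1 + η)) := by
        have : 0 ≤ M * (1 + η) := by positivity
        nlinarith
      linarith
    · intro t ht
      have h3 := hRs ht.1
      have h4 : T' ≤ (M * (1 + η)) ^ (2 : ℝ) := by
        rw [Real.rpow_two]
        refine hT'2.trans ?_
        gcongr
      exact ⟨by linarith [h3.1], by linarith [h3.2]⟩
  -- assembly
  have g1 : w ^ 2 * (24 * C1 * L ^ 3) ≤ ε / 2 / L ^ 4 := by
    rw [le_div_iff₀ (by positivity)]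
    have h1 : w ^ 2 * M ^ (c / 10) = 1 := by
      rw [hw, ← Real.rpow_natCast, ← Real.rpow_mul hM0.le, ← Real.rpow_add hM0]
      have : -(c / 20) * ((2 : ℕ) : ℝ) + c / 10 = 0 := by push_cast; ring
      rw [this, Real.rpow_zero]
    calc w ^ 2 * (24 * C1 * L ^ 3) * L ^ 4 = w ^ 2 * (24 * C1) * L ^ 7 := by ring
      _ ≤ w ^ 2 * (24 * C1) * (ε / (48 * C1) * M ^ (c / 10)) := by gcongr
      _ = (w ^ 2 * M ^ (c / 10)) * (24 * C1 * (ε / (48 * C1))) := by ring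
      _ = ε / 2 := by
          rw [h1, one_mul]
          field_simp
          norm_num
  have g2 : (e / L) ^ 2 * (C2 * (1 + 80 * C1) / L ^ 2) = ε / 2 / L ^ 4 := by
    rw [← he2]
    field_simp
  calc w ^ 2 * (∫ t in R, ‖G t‖ ^ 2) + (e / L) ^ 2 * ∫ t in R ∩ {t | w < ‖F t‖}, ‖F t‖ ^ 2
      ≤ w ^ 2 * (24 * C1 * L ^ 3) + (e / L) ^ 2 * (C2 * (1 + 80 * C1) / L ^ 2) := by gcongr
    _ ≤ ε / 2 / L ^ 4 + ε / 2 / L ^ 4 := by rw [g2]; gcongr
    _ = ε / L ^ 4 := by ring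

end Pool.Agent.Helper68.AA
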